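import Pool.Agent.H17.Vis3

set_option autoImplicit false

namespace Pool.Agent.Results.MP_019aa5_co.VisibilityNotBasis

open Pool.Agent.H17.Vis

universe u

/-- For every field `k` there are a simplicial complex `Δ` on six vertices with all facets of
dimension two, a realization of `Δ` in the plane with convex underlying space, a point `x` of that
space on no line spanned by an edge, and a linear system of parameters `θ₁, θ₂, θ₃` of `k[Δ]`, such
that the images of the visibility monomials `x^{G_F}` (`F` a facet) in `k[Δ]/(θ)` are linearly
dependent. -/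
theorem result (k : Type u) [Field k] :
    ∃ (Δ : Cx 6) (R : Realization Δ 2), (∀ F, Δ.IsFacet F → F.card = 3) ∧
      Convex ℝ R.space ∧ ∃ x ∈ R.space, R.Generic x ∧
      ∃ θ : Fin 3 → MvPolynomial (Fin 6) k, Δ.IsLSOP θ ∧
        ¬ LinearIndependent k (fun F : {F // Δ.IsFacet F} =>
          (Ideal.Quotient.mk _ (∏ i ∈ R.G x F, MvPolynomial.X i) : Δ.Reduction θ)) :=
  main k

end Pool.Agent.Results.MP_019aa5_co.VisibilityNotBasis
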